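import Pool.Agent.Lib_helper87.TJN.N5

set_option autoImplicit false

/-!
# Transport of a cyclic group of points and of its numbers `γ`
-/

namespace Pool.Agent.NJ

open WeierstrassCurve WeierstrassCurve.Affine Pool.Agent.FK4

variable {k : Type*} [Field k] [DecidableEq k] {W : WeierstrassCurve.Affine k}

/-- **Transport by an automorphism of the field which fixes the curve.** -/
theorem transport {p : ℕ} [NeZero p] (H : AddSubgroup W.Point) [Fintype H] (ε : ZMod p ≃+ H)
    (s : k ≃+* k) (h1 : s W.a₁ = W.a₁) (h2 : s W.a₂ = W.a₂) (h3 : s W.a₃ = W.a₃)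
    (h4 : s W.a₄ = W.a₄) (h6 : s W.a₆ = W.a₆) {x y x' y' : k} {h : W.Nonsingular x y}
    {h' : W.Nonsingular x' y'} (hP : ((ε 1 : H) : W.Point) = .some x y h)
    (hx : s x = x') (hy : s y = y') :
    ∃ (H' : AddSubgroup W.Point) (_ : Fintype H') (ε' : ZMod p ≃+ H'),
      ((ε' 1 : H') : W.Point) = .some x' y' h' ∧
      ∀ c, gam H' ((ε' c : H') : W.Point) = s (gam H ((ε c : H) : W.Point)) := by
  have hW : W.map (s : k →+* k) = W := TJN.fix_map h1 h2 h3 h4 h6
  set E : H ≃+ H.map (TJN.mph (s : k →+* k) hW) :=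
    H.equivMapOfInjective _ (TJN.mph_injective _ hW) with hE
  have hEc : ∀ c : H, ((E c : H.map (TJN.mph (s : k →+* k) hW)) : W.Point) =
      TJN.mph (s : k →+* k) hW c := fun c => rfl
  letI : Fintype (H.map (TJN.mph (s : k →+* k) hW)) := Fintype.ofEquiv H E.toEquiv
  refine ⟨H.map (TJN.mph (s : k →+* k) hW), inferInstance, ε.trans E, ?_, fun c => ?_⟩
  · show ((E (ε 1) : H.map (TJN.mph (s : k →+* k) hW)) : W.Point) = _
    rw [hEc, hP, TJN.mph_some]
    subst hx hy
    rfl
  · show gam _ ((E (ε c) : H.map (TJN.mph (s : k →+* k) hW)) : W.Point) = _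
    rw [hEc, TJN.gam_mph]
    rfl

end Pool.Agent.NJ
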